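import Mathlib
import Pool.Agent.H54.SqSize

namespace Pool.Agent.Results.MP_bf7c2b_nt.SharpFour
open Polynomial Finset Filter Topology

/-- the set of complex conjugates of `α`: the complex roots of its minimal polynomial -/
noncomputable def conjugates (α : ℂ) : Finset ℂ := ((minpoly ℚ α).aroots ℂ).toFinset

/-- number of real conjugates -/
noncomputable def realCount (α : ℂ) : ℕ := ((conjugates α).filter (fun z => z.im = 0)).card

/-- absolute square size: real conjugates and one conjugate of each non-real pair -/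
noncomputable def sqSize (α : ℂ) : ℝ := ∑ z ∈ (conjugates α).filter (fun z => 0 ≤ z.im), ‖z‖ ^ 2

theorem result : ∃ s : ℕ, 1 ≤ s ∧ s ≠ 2 ∧ ∀ ε : ℝ, 0 < ε → ∃ α : ℂ, IsIntegral ℤ α ∧ α ≠ 0 ∧
    2 ≤ (minpoly ℚ α).natDegree ∧ realCount α = s ∧
    sqSize α < ((minpoly ℚ α).natDegree : ℝ) *
      (2 : ℝ) ^ ((s : ℝ) / ((minpoly ℚ α).natDegree : ℝ) - 1) + ε := by
  refine ⟨4, by norm_num, by norm_num, fun ε hε => ?_⟩
  set η := min (1 / 2) (ε / 16) with hη
  have η0 : 0 < η := lt_min (by norm_num) (by linarith)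
  have t1 : ∀ᶠ k : ℕ in atTop, (k : ℝ) ^ 2 * (3 / 4) ^ k ≤ 1 / 20 :=
    (tendsto_pow_const_mul_const_pow_of_abs_lt_one 2
      (show |(3 / 4 : ℝ)| < 1 by rw [abs_of_pos] <;> norm_num)).eventually
      (ge_mem_nhds (by norm_num))
  have t0 : Tendsto (fun k : ℕ => (19 / 20 : ℝ) ^ k) atTop (𝓝 0) :=
    tendsto_pow_atTop_nhds_zero_of_lt_one (by norm_num) (by norm_num)
  have t2 := t0.eventually (ge_mem_nhds (show (0 : ℝ) < 1 / 1000 by norm_num))
  have t3 := t0.eventually (ge_mem_nhds (show (0 : ℝ) < η ^ 2 / 10 by positivity))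
  have t4 : ∀ᶠ k : ℕ in atTop, (196 : ℝ) / k < ε / 2 :=
    (tendsto_const_div_atTop_nhds_zero_nat (196 : ℝ)).eventually (gt_mem_nhds (by linarith))
  obtain ⟨M, hM⟩ := eventually_atTop.1 (t1.and (t2.and (t3.and t4)))
  have hj : M + 14 ≤ 3 ^ (M + 14) := (Nat.lt_pow_self (by norm_num)).le
  obtain ⟨α, a1, a2, a3, a4, a5, a6⟩ := Pool.Agent.H54.SqSize.alg (M + 14) (by omega)
  have ho : Odd (3 ^ (M + 14)) := Odd.pow (by decide)
  generalize 3 ^ (M + 14) = m at *
  obtain ⟨-, b2, b3, b4⟩ := hM m (by omega)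
  obtain ⟨c1, c2⟩ := Pool.Agent.H54.SqSize.core m ho (by omega)
    (fun k hk => (hM k (by omega)).1) b2 η η0.le (min_le_left _ _) (by linarith) _ a4 a5 a6
  refine ⟨α, a1, a2, by omega, c1, ?_⟩
  rw [a3]
  have m0 : (14 : ℝ) ≤ m := by exact_mod_cast (by omega)
  have e : ((2 * m : ℕ) : ℝ) * (2 : ℝ) ^ (((4 : ℕ) : ℝ) / ((2 * m : ℕ) : ℝ) - 1)
      = m * Real.exp (Real.log 2 * (2 / m)) := by
    rw [Real.rpow_sub_one (by norm_num), Real.rpow_def_of_pos (by norm_num)]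
    push_cast
    rw [show (4 : ℝ) / (2 * m) = 2 / m by field_simp; norm_num]
    ring
  rw [e]
  have h1 := Real.add_one_le_exp (Real.log 2 * (2 / m))
  have h2 : (m : ℝ) * (Real.log 2 * (2 / m) + 1) = m + 2 * Real.log 2 := by field_simp; ring
  have h3 : (m : ℝ) * (Real.log 2 * (2 / m) + 1) ≤ m * Real.exp (Real.log 2 * (2 / m)) := by
    gcongr
  have h4 : η ≤ ε / 16 := min_le_right _ _
  unfold sqSize conjugates
  linarith

end Pool.Agent.Results.MP_bf7c2b_nt.SharpFour
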